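import Mathlib

/-!
Groups without two infinite commuting subgroups: the FC-centre is finite, infinite normal subgroups
of subgroups of finite index have infinite intersections.
-/

namespace Pool.Agent.H50.CIG

/-- there are two infinite subgroups which commute elementwise -/
def CI (G : Type*) [Group G] : Prop :=
  ∃ A B : Subgroup G, (A : Set G).Infinite ∧ (B : Set G).Infinite ∧
    ∀ a ∈ A, ∀ b ∈ B, a * b = b * a

variable {G : Type*} [Group G]

theorem CI.of_subgroup {H : Subgroup G} (h : CI H) : CI G := by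
  obtain ⟨A, B, hA, hB, hAB⟩ := h
  refine ⟨A.map H.subtype, B.map H.subtype, ?_, ?_, ?_⟩
  · rw [Subgroup.coe_map]
    exact hA.image (Subtype.val_injective.injOn)
  · rw [Subgroup.coe_map]
    exact hB.image (Subtype.val_injective.injOn)
  · rintro _ ⟨a, ha, rfl⟩ _ ⟨b, hb, rfl⟩
    have := hAB a ha b hb
    rw [← map_mul, ← map_mul, this]

theorem finiteIndex_of_fun {α : Type*} [Finite α] (K : Subgroup G) (f : G → α)
    (h : ∀ a b, f a = f b → a⁻¹ * b ∈ K) : K.FiniteIndex := by
  have : Finite (G ⧸ K) := Finite.of_injective (fun q : G ⧸ K => f q.out) (by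
    intro q r hqr
    have h1 := h _ _ hqr
    rw [← QuotientGroup.eq] at h1
    rw [QuotientGroup.out_eq', QuotientGroup.out_eq'] at h1
    exact h1)
  exact Subgroup.finiteIndex_of_finite_quotient

theorem finite_of_finiteIndex (K : Subgroup G) [K.FiniteIndex] [Finite K] : Finite G :=
  Finite.of_equiv _ (Subgroup.groupEquivQuotientProdSubgroup (s := K)).symm

theorem inf_infinite (M K : Subgroup G) [K.FiniteIndex] (hM : (M : Set G).Infinite) :
    ((M ⊓ K : Subgroup G) : Set G).Infinite := by
  intro hfin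
  have : Finite (K.subgroupOf M) := by
    have h1 : Finite ((M ⊓ K : Subgroup G) : Set G) := hfin
    refine Finite.of_injective
      (fun x : K.subgroupOf M => (⟨x.1.1, ⟨x.1.2, x.2⟩⟩ : ((M ⊓ K : Subgroup G) : Set G))) ?_
    intro x y hxy
    apply Subtype.ext
    apply Subtype.ext
    have h0 := congrArg Subtype.val hxy
    exact h0
  have h2 : Finite M := finite_of_finiteIndex (K.subgroupOf M)
  exact hM (Set.toFinite (M : Set G))

/-- an infinite commuting set gives an infinite abelian subgroup -/
theorem CI.of_set (S : Set G) (hS : S.Infinite) (h : ∀ x ∈ S, ∀ y ∈ S, x * y = y * x) : CI G := by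
  let A : Subgroup G := Subgroup.centralizer (Subgroup.centralizer S : Set G)
  have hSC : S ⊆ (Subgroup.centralizer S : Set G) := by
    intro x hx
    rw [SetLike.mem_coe, Subgroup.mem_centralizer_iff]
    intro y hy
    exact h y hy x hx
  have hSA : S ⊆ (A : Set G) := by
    intro x hx
    rw [SetLike.mem_coe, Subgroup.mem_centralizer_iff]
    intro y hy
    rw [SetLike.mem_coe, Subgroup.mem_centralizer_iff] at hy
    exact (hy x hx).symm
  have hAC : ∀ x ∈ A, x ∈ Subgroup.centralizer S := by
    intro x hx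
    rw [Subgroup.mem_centralizer_iff] at hx ⊢
    intro y hy
    exact hx y (hSC hy)
  refine ⟨A, A, hS.mono hSA, hS.mono hSA, ?_⟩
  intro a ha b hb
  exact (Subgroup.mem_centralizer_iff.mp hb) a (hAC a ha)

/-- an infinite group in which all centralizers of elements have finite index -/
theorem CI.of_fc [Infinite G] (h : ∀ x : G, (Subgroup.centralizer {x}).FiniteIndex) : CI G := by
  obtain ⟨S, hS⟩ := zorn_subset {S : Set G | ∀ x ∈ S, ∀ y ∈ S, x * y = y * x} (by
    intro c hc hch
    refine ⟨⋃₀ c, ?_, fun s hs => Set.subset_sUnion_of_mem hs⟩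
    rintro x ⟨s, hs, hx⟩ y ⟨t, ht, hy⟩
    rcases hch.total hs ht with hst | hts
    · exact hc ht x (hst hx) y hy
    · exact hc hs x hx y (hts hy))
  by_cases hfin : S.Finite
  · exfalso
    have : Finite S := hfin
    have h1 : (⨅ x : S, Subgroup.centralizer {(x : G)}).FiniteIndex :=
      Subgroup.finiteIndex_iInf fun x => h x
    have h2 : ((⊤ ⊓ ⨅ x : S, Subgroup.centralizer {(x : G)} : Subgroup G) : Set G).Infinite :=
      inf_infinite ⊤ _ (by rw [Subgroup.coe_top]; exact Set.infinite_univ)
    obtain ⟨x, hx, hxS⟩ := h2.exists_notMem_finite hfin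
    have hx' : ∀ y ∈ S, y * x = x * y := by
      intro y hy
      have h3 : x ∈ ⨅ x : S, Subgroup.centralizer {(x : G)} := hx.2
      rw [Subgroup.mem_iInf] at h3
      have h4 := h3 ⟨y, hy⟩
      rw [Subgroup.mem_centralizer_iff] at h4
      exact h4 y rfl
    have h5 : insert x S ∈ {S : Set G | ∀ x ∈ S, ∀ y ∈ S, x * y = y * x} := by
      rintro a (rfl | ha) b (rfl | hb)
      · rfl
      · exact (hx' b hb).symm
      · exact hx' a ha
      · exact hS.prop a ha b hb
    exact hxS (hS.le_of_ge h5 (Set.subset_insert x S) (Set.mem_insert x S))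
  · exact CI.of_set S hfin hS.prop

theorem CI.of_normal (M N : Subgroup G) [M.Normal] [N.Normal] (hM : (M : Set G).Infinite)
    (hN : (N : Set G).Infinite) (hF : ((M ⊓ N : Subgroup G) : Set G).Finite) : CI G := by
  let F : Subgroup G := M ⊓ N
  have : Finite F := hF
  let K : Subgroup G := (MulAut.conjNormal : G →* MulAut F).ker
  have : Finite (MulAut F) := inferInstance
  have hK : K.FiniteIndex := inferInstance
  have hKF : K ≤ Subgroup.centralizer (F : Set G) := by
    intro k hk
    rw [Subgroup.mem_centralizer_iff]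
    intro f hf
    have h1 : (MulAut.conjNormal k : MulAut F) ⟨f, hf⟩ = ⟨f, hf⟩ := by
      have h2 : (MulAut.conjNormal k : MulAut F) = 1 := hk
      rw [h2]
      rfl
    have h3 := congrArg Subtype.val h1
    rw [MulAut.conjNormal_apply] at h3
    have h4 : k * f * k⁻¹ = f := h3
    rw [mul_inv_eq_iff_eq_mul] at h4
    exact h4.symm
  let M1 : Subgroup G := M ⊓ K
  let N1 : Subgroup G := N ⊓ K
  have hM1 : (M1 : Set G).Infinite := inf_infinite M K hM
  have hN1 : (N1 : Set G).Infinite := inf_infinite N K hN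
  have e1 : ⁅M1, N1⁆ ≤ F :=
    (Subgroup.commutator_mono inf_le_left inf_le_left).trans (Subgroup.commutator_le_inf M N)
  have e2 : ⁅⁅M1, N1⁆, N1⁆ = ⊥ := by
    rw [Subgroup.commutator_comm, Subgroup.commutator_eq_bot_iff_le_centralizer]
    exact (inf_le_right.trans hKF).trans (Subgroup.centralizer_le e1)
  have e3 : ⁅⁅N1, N1⁆, M1⁆ = ⊥ := by
    apply Subgroup.commutator_commutator_eq_bot_of_rotate
    · rw [Subgroup.commutator_comm N1 M1]
      exact e2
    · exact e2
  rw [Subgroup.commutator_eq_bot_iff_le_centralizer] at e3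
  let C : Subgroup G := N1 ⊓ Subgroup.centralizer (M1 : Set G)
  by_cases hC : (C : Set G).Infinite
  · refine ⟨M1, C, hM1, hC, ?_⟩
    intro a ha b hb
    exact (Subgroup.mem_centralizer_iff.mp hb.2) a ha
  · rw [Set.not_infinite] at hC
    have : Finite C := hC
    have : Infinite N1 := hN1.to_subtype
    apply CI.of_subgroup (H := N1)
    apply CI.of_fc
    intro y
    have hmem : ∀ z : N1, (z : G) * y * (z : G)⁻¹ * (y : G)⁻¹ ∈ C := by
      intro z
      have h1 : (z : G) * y * (z : G)⁻¹ * (y : G)⁻¹ ∈ ⁅N1, N1⁆ :=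
        Subgroup.commutator_mem_commutator z.2 y.2
      exact ⟨N1.mul_mem (N1.mul_mem (N1.mul_mem z.2 y.2) (N1.inv_mem z.2)) (N1.inv_mem y.2),
        e3 h1⟩
    apply finiteIndex_of_fun (α := C) _ fun z => ⟨_, hmem z⟩
    intro a b hab
    have h1 : (a : G) * y * (a : G)⁻¹ * (y : G)⁻¹ = (b : G) * y * (b : G)⁻¹ * (y : G)⁻¹ :=
      congrArg Subtype.val hab
    rw [mul_left_inj] at h1
    rw [Subgroup.mem_centralizer_iff]
    intro w hw
    rw [Set.mem_singleton_iff.mp hw]
    apply Subtype.ext
    push_cast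
    have h2 : (y : G) * (a : G)⁻¹ = (a : G)⁻¹ * ((b : G) * y * (b : G)⁻¹) := by
      rw [← h1]
      group
    calc (y : G) * ((a : G)⁻¹ * b) = ((y : G) * (a : G)⁻¹) * b := by group
      _ = (a : G)⁻¹ * ((b : G) * y * (b : G)⁻¹) * b := by rw [h2]
      _ = (a : G)⁻¹ * (b : G) * y := by group

/-- the FC-centre -/
def fc (G : Type*) [Group G] : Subgroup G where
  carrier := {x | (Subgroup.centralizer {x}).FiniteIndex}
  one_mem' := by
    have h : Subgroup.centralizer {(1 : G)} = ⊤ := by
      rw [eq_top_iff]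
      intro x _
      rw [Subgroup.mem_centralizer_iff]
      rintro _ rfl
      simp
    show (Subgroup.centralizer {(1 : G)}).FiniteIndex
    rw [h]
    infer_instance
  mul_mem' := by
    intro x y hx hy
    have hx' : (Subgroup.centralizer {x}).FiniteIndex := hx
    have hy' : (Subgroup.centralizer {y}).FiniteIndex := hy
    show (Subgroup.centralizer {x * y}).FiniteIndex
    refine Subgroup.finiteIndex_of_le (H := Subgroup.centralizer {x} ⊓ Subgroup.centralizer {y}) ?_
    rintro z ⟨hz1, hz2⟩
    have h1 := Subgroup.mem_centralizer_iff.mp hz1 x rfl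
    have h2 := Subgroup.mem_centralizer_iff.mp hz2 y rfl
    rw [Subgroup.mem_centralizer_iff]
    rintro _ rfl
    rw [mul_assoc, h2, ← mul_assoc, h1, mul_assoc]
  inv_mem' := by
    intro x hx
    have hx' : (Subgroup.centralizer {x}).FiniteIndex := hx
    show (Subgroup.centralizer {x⁻¹}).FiniteIndex
    refine Subgroup.finiteIndex_of_le (H := Subgroup.centralizer {x}) ?_
    intro z hz
    rw [Subgroup.mem_centralizer_iff] at hz ⊢
    rintro _ rfl
    have h1 := hz x rfl
    rw [inv_mul_eq_iff_eq_mul, ← mul_assoc, h1, mul_assoc, mul_inv_cancel, mul_one]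

theorem mem_fc (x : G) : x ∈ fc G ↔ (Subgroup.centralizer {x}).FiniteIndex := Iff.rfl

theorem fc_finite (h : ¬ CI G) : (fc G : Set G).Finite := by
  by_contra hinf
  have : Infinite (fc G) := (Set.not_finite.mp hinf : (fc G : Set G).Infinite).to_subtype
  apply h
  apply CI.of_subgroup (H := fc G)
  apply CI.of_fc
  intro x
  have := (mem_fc (x : G)).mp x.2
  refine Subgroup.finiteIndex_of_le (H := (Subgroup.centralizer {(x : G)}).subgroupOf (fc G)) ?_
  intro z hz
  rw [Subgroup.mem_subgroupOf, Subgroup.mem_centralizer_iff] at hz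
  rw [Subgroup.mem_centralizer_iff]
  rintro _ rfl
  apply Subtype.ext
  exact hz _ rfl

/-- a finite subgroup normalized by a subgroup of finite index lies in the FC-centre -/
theorem le_fc (H K : Subgroup G) [H.FiniteIndex] (hK : (K : Set G).Finite)
    (hn : ∀ h ∈ H, ∀ k ∈ K, h * k * h⁻¹ ∈ K) : K ≤ fc G := by
  intro k hk
  have : Finite K := hK
  have h1 : ((Subgroup.centralizer {k}).subgroupOf H).FiniteIndex := by
    apply finiteIndex_of_fun (α := K) _ fun z : H => ⟨(z : G) * k * (z : G)⁻¹, hn z z.2 k hk⟩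
    intro a b hab
    have h1 : (a : G) * k * (a : G)⁻¹ = (b : G) * k * (b : G)⁻¹ := congrArg Subtype.val hab
    rw [Subgroup.mem_subgroupOf, Subgroup.mem_centralizer_iff]
    intro w hw
    rw [Set.mem_singleton_iff.mp hw]
    push_cast
    have h2 : k * (a : G)⁻¹ = (a : G)⁻¹ * ((b : G) * k * (b : G)⁻¹) := by
      rw [← h1]
      group
    calc k * ((a : G)⁻¹ * b) = (k * (a : G)⁻¹) * b := by group
      _ = (a : G)⁻¹ * ((b : G) * k * (b : G)⁻¹) * b := by rw [h2]
      _ = (a : G)⁻¹ * (b : G) * k := by group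
  rw [mem_fc]
  constructor
  have h2 : (Subgroup.centralizer {k}).relIndex H ≠ 0 := h1.index_ne_zero
  have h3 : ((Subgroup.centralizer {k}) ⊓ H).index ≠ 0 := by
    rw [← Subgroup.relIndex_mul_index (inf_le_right : (Subgroup.centralizer {k}) ⊓ H ≤ H),
      Subgroup.inf_relIndex_right]
    exact mul_ne_zero h2 Subgroup.FiniteIndex.index_ne_zero
  intro h0
  apply h3
  have h4 := Subgroup.index_dvd_of_le (inf_le_left : (Subgroup.centralizer {k}) ⊓ H ≤ _)
  rw [h0] at h4
  exact Nat.eq_zero_of_zero_dvd h4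

/-- the main lemma: in a group without two infinite commuting subgroups, finitely many virtually
normal subgroups with finite intersection -/
theorem exists_le_fc [Infinite G] (hG : ¬ CI G) {ι : Type*} [Finite ι] (H K : ι → Subgroup G)
    (hH : ∀ i, (H i).FiniteIndex) (hn : ∀ i, ∀ h ∈ H i, ∀ k ∈ K i, h * k * h⁻¹ ∈ K i)
    (hf : ((⨅ i, K i : Subgroup G) : Set G).Finite) : ∃ i, K i ≤ fc G := by
  classical
  have := Fintype.ofFinite ι
  by_contra hcon
  have hinf : ∀ i, (K i : Set G).Infinite := by
    intro i hfin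
    have := hH i
    exact hcon ⟨i, le_fc (H i) (K i) hfin (hn i)⟩
  let L : Subgroup G := ⨅ i, H i
  have hL : L.FiniteIndex := Subgroup.finiteIndex_iInf hH
  have hLn : ∀ i, ∀ h ∈ L, ∀ k ∈ K i, h * k * h⁻¹ ∈ K i := by
    intro i h hh k hk
    exact hn i h ((Subgroup.mem_iInf.mp hh) i) k hk
  have key : ∀ s : Finset ι, (((⨅ i ∈ s, K i) ⊓ L : Subgroup G) : Set G).Infinite := by
    intro s
    induction s using Finset.induction_on with
    | empty =>
      have h1 := inf_infinite (⊤ : Subgroup G) L (by rw [Subgroup.coe_top]; exact Set.infinite_univ)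
      simpa using h1
    | insert i s his ih =>
      intro hfin
      apply hG
      let M : Subgroup G := (⨅ j ∈ s, K j) ⊓ L
      let N : Subgroup G := K i ⊓ L
      have hMn : ∀ h ∈ L, ∀ k ∈ M, h * k * h⁻¹ ∈ M := by
        intro h hh k hk
        refine Subgroup.mem_inf.mpr ⟨?_, L.mul_mem (L.mul_mem hh hk.2) (L.inv_mem hh)⟩
        have h1 : k ∈ ⨅ j ∈ s, K j := hk.1
        simp only [Subgroup.mem_iInf] at h1 ⊢
        intro j hj
        exact hLn j h hh k (h1 j hj)
      have hNn : ∀ h ∈ L, ∀ k ∈ N, h * k * h⁻¹ ∈ N := by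
        intro h hh k hk
        exact ⟨hLn i h hh k hk.1, L.mul_mem (L.mul_mem hh hk.2) (L.inv_mem hh)⟩
      have hMinf : (M : Set G).Infinite := ih
      have hNinf : (N : Set G).Infinite := inf_infinite (K i) L (hinf i)
      have tr : ∀ P : Subgroup G, P ≤ L → (P : Set G).Infinite →
          ((P.subgroupOf L : Subgroup L) : Set L).Infinite := by
        intro P hPL hP hfin2
        apply hP
        have h1 : ((P.subgroupOf L).map L.subtype : Set G) = (P : Set G) := by
          rw [SetLike.coe_set_eq, Subgroup.map_subgroupOf_eq_of_le hPL]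
        rw [← h1, Subgroup.coe_map]
        exact hfin2.image _
      have : (M.subgroupOf L).Normal := by
        constructor
        intro n hn g
        rw [Subgroup.mem_subgroupOf] at hn ⊢
        exact hMn g g.2 n hn
      have : (N.subgroupOf L).Normal := by
        constructor
        intro n hn g
        rw [Subgroup.mem_subgroupOf] at hn ⊢
        exact hNn g g.2 n hn
      apply CI.of_subgroup (H := L)
      apply CI.of_normal (M.subgroupOf L) (N.subgroupOf L) (tr M inf_le_right hMinf)
        (tr N inf_le_right hNinf)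
      have hfin3 : ((M ⊓ N : Subgroup G) : Set G).Finite := by
        apply hfin.subset
        rintro x ⟨hx1, hx2⟩
        have h1 : x ∈ ⨅ j ∈ s, K j := hx1.1
        have h2 : x ∈ K i := hx2.1
        refine Subgroup.mem_inf.mpr ⟨?_, hx1.2⟩
        simp only [Subgroup.mem_iInf, Finset.mem_insert] at h1 ⊢
        rintro j (rfl | hj)
        · exact h2
        · exact h1 j hj
      refine (hfin3.preimage (f := fun x : L => (x : G)) Subtype.val_injective.injOn).subset ?_
      rintro x ⟨hx1, hx2⟩
      exact ⟨hx1, hx2⟩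
  apply key Finset.univ
  apply hf.subset
  intro x hx
  have h1 : x ∈ ⨅ i ∈ Finset.univ, K i := (Subgroup.mem_inf.mp hx).1
  simpa using h1

end Pool.Agent.H50.CIG
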