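import Pool.Agent.Helper50_CIG.Basic

/-!
Growth of a group without two infinite commuting subgroups is bounded by index times image for
every family of virtual homomorphisms with finite joint kernel.
-/

open scoped Pointwise

namespace Pool.Agent.H50.CIG

variable {G : Type*} [Group G]

theorem card_le_mul_image {α : Type*} [DecidableEq α] (A W : Finset G) (f : G → α)
    (h : ∀ a ∈ A, ∀ b ∈ A, f a = f b → a⁻¹ * b ∈ W) : A.card ≤ W.card * (A.image f).card := by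
  classical
  apply Finset.card_le_mul_card_image
  intro c hc
  obtain ⟨a, ha, rfl⟩ := Finset.mem_image.mp hc
  apply Finset.card_le_card_of_injOn (fun b => a⁻¹ * b)
  · intro b hb
    rw [Finset.mem_coe, Finset.mem_filter] at hb
    exact h a ha b hb.1 hb.2.symm
  · intro b _ c _ hbc
    exact mul_left_cancel hbc

theorem ball_inv_mul [DecidableEq G] (S : Finset G) (m : ℕ) (a b : G)
    (ha : a ∈ (S ∪ S⁻¹ ∪ {1}) ^ m) (hb : b ∈ (S ∪ S⁻¹ ∪ {1}) ^ m) :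
    a⁻¹ * b ∈ (S ∪ S⁻¹ ∪ {1}) ^ (2 * m) := by
  have h1 : (S ∪ S⁻¹ ∪ {1})⁻¹ = S ∪ S⁻¹ ∪ {1} := by
    ext x
    simp only [Finset.mem_inv', Finset.mem_union, Finset.mem_singleton, inv_inv, inv_eq_one]
    tauto
  have h2 : a⁻¹ ∈ (S ∪ S⁻¹ ∪ {1}) ^ m := by
    rw [← h1, inv_pow]
    exact Finset.inv_mem_inv ha
  rw [two_mul, pow_add]
  exact Finset.mul_mem_mul h2 hb

theorem ball_le_index [DecidableEq G] (S : Finset G) (m : ℕ) (H : Subgroup G) [H.FiniteIndex] :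
    ((S ∪ S⁻¹ ∪ {1}) ^ m).card ≤
      H.index * {g : G | g ∈ H ∧ g ∈ (S ∪ S⁻¹ ∪ {1}) ^ (2 * m)}.ncard := by
  classical
  have hfin : {g : G | g ∈ H ∧ g ∈ (S ∪ S⁻¹ ∪ {1}) ^ (2 * m)}.Finite :=
    ((S ∪ S⁻¹ ∪ {1}) ^ (2 * m)).finite_toSet.subset fun g hg => hg.2
  have h1 := card_le_mul_image ((S ∪ S⁻¹ ∪ {1}) ^ m) hfin.toFinset (fun g : G => (g : G ⧸ H)) (by
    intro a ha b hb hab
    rw [Set.Finite.mem_toFinset]
    refine ⟨?_, ball_inv_mul S m a b ha hb⟩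
    exact QuotientGroup.eq.mp hab)
  rw [← Set.ncard_eq_toFinset_card _ hfin] at h1
  have h2 : (((S ∪ S⁻¹ ∪ {1}) ^ m).image (fun g : G => (g : G ⧸ H))).card ≤ H.index := by
    have : Fintype (G ⧸ H) := Fintype.ofFinite _
    rw [Subgroup.index_eq_card, Nat.card_eq_fintype_card]
    exact Finset.card_le_univ _
  calc _ ≤ _ := h1
    _ ≤ _ := Nat.mul_le_mul_left _ h2
    _ = _ := Nat.mul_comm _ _

/-- a family of virtual homomorphisms with finite joint kernel, index at most a, and such that the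
image of W has at most b elements -/
def Fam (G : Type*) [Group G] (W : Set G) (a b : ℕ) : Prop :=
  ∃ (ι : Type) (_ : Finite ι) (H : ι → Subgroup G) (Q : ι → Type) (_ : ∀ i, Group (Q i))
    (φ : ∀ i, H i →* Q i), (∀ i, (H i).FiniteIndex) ∧ (∀ i, (H i).index ≤ a) ∧
    (∀ i, (φ i '' {h | (h : G) ∈ W}).Finite ∧ (φ i '' {h | (h : G) ∈ W}).ncard ≤ b) ∧
    {g : G | ∀ i, ∃ h : g ∈ H i, φ i ⟨g, h⟩ = 1}.Finite

theorem ball_le_of_fam [DecidableEq G] [Infinite G] (hG : ¬ CI G) (S : Finset G) (m a b : ℕ)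
    (h : Fam G (((S ∪ S⁻¹ ∪ {1}) ^ (2 * m) : Finset G) : Set G) a b) :
    ((S ∪ S⁻¹ ∪ {1}) ^ m).card ≤ a * (Nat.card (fc G) * b) := by
  classical
  obtain ⟨ι, hι, H, Q, hQ, φ, hH, ha, hb, hf⟩ := h
  obtain ⟨i, hi⟩ := exists_le_fc hG H (fun i => (φ i).ker.map (H i).subtype) hH (by
    rintro i h hh _ ⟨k, hk, rfl⟩
    refine ⟨⟨h, hh⟩ * k * ⟨h, hh⟩⁻¹, ?_, rfl⟩
    have hk' : φ i k = 1 := hk
    show φ i _ = 1
    rw [map_mul, map_mul, hk', mul_one, map_inv, mul_inv_cancel]) (by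
    apply hf.subset
    intro g hg i
    have h1 := (Subgroup.mem_iInf.mp hg) i
    obtain ⟨k, hk, rfl⟩ := h1
    exact ⟨k.2, hk⟩)
  have := hH i
  have h1 := ball_le_index S m (H i)
  refine h1.trans (Nat.mul_le_mul (ha i) ?_)
  have hfc : (fc G : Set G).Finite := fc_finite hG
  have hfin : {g : G | g ∈ H i ∧ g ∈ (S ∪ S⁻¹ ∪ {1}) ^ (2 * m)}.Finite :=
    ((S ∪ S⁻¹ ∪ {1}) ^ (2 * m)).finite_toSet.subset fun g hg => hg.2
  have h2 := card_le_mul_image hfin.toFinset hfc.toFinset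
    (fun g => if hg : g ∈ H i then φ i ⟨g, hg⟩ else 1) (by
    intro x hx y hy hxy
    rw [Set.Finite.mem_toFinset] at hx hy ⊢
    rw [dif_pos hx.1, dif_pos hy.1] at hxy
    apply hi
    refine ⟨⟨x, hx.1⟩⁻¹ * ⟨y, hy.1⟩, ?_, rfl⟩
    show φ i _ = 1
    rw [map_mul, map_inv, hxy, inv_mul_cancel])
  rw [← Set.ncard_eq_toFinset_card _ hfin, ← Set.ncard_eq_toFinset_card _ hfc] at h2
  refine h2.trans (Nat.mul_le_mul (le_of_eq rfl) ?_)
  refine le_trans ?_ (hb i).2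
  rw [← Set.ncard_coe_finset]
  apply Set.ncard_le_ncard _ (hb i).1
  intro q hq
  rw [Finset.mem_coe, Finset.mem_image] at hq
  obtain ⟨g, hg, rfl⟩ := hq
  rw [Set.Finite.mem_toFinset] at hg
  rw [dif_pos hg.1]
  exact ⟨⟨g, hg.1⟩, hg.2, rfl⟩

theorem infinite_of_growth [DecidableEq G] (S : Finset G)
    (h : ∀ C : ℝ, ∃ n : ℕ, C < ((((S ∪ S⁻¹ ∪ {1}) ^ n).card : ℕ) : ℝ)) : Infinite G := by
  by_contra hfin
  rw [not_infinite_iff_finite] at hfin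
  have := Fintype.ofFinite G
  obtain ⟨n, hn⟩ := h (Fintype.card G)
  have h1 : ((S ∪ S⁻¹ ∪ {1}) ^ n).card ≤ Fintype.card G := Finset.card_le_univ _
  have h2 : ((((S ∪ S⁻¹ ∪ {1}) ^ n).card : ℕ) : ℝ) ≤ (Fintype.card G : ℝ) := by exact_mod_cast h1
  linarith

/-- T2: virtual homomorphisms of polynomial index with polynomial images of the balls -/
theorem ci_of_fam [DecidableEq G] (S : Finset G)
    (hsp : ∀ d : ℕ, ∀ C : ℝ, ∃ n : ℕ,
      C * ((n : ℝ) + 1) ^ d < ((((S ∪ S⁻¹ ∪ {1}) ^ n).card : ℕ) : ℝ))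
    (c D : ℕ) (hfam : ∀ n : ℕ, Fam G (((S ∪ S⁻¹ ∪ {1}) ^ n : Finset G) : Set G)
      (c * (n + 1) ^ D) (c * (n + 1) ^ D)) : CI G := by
  by_contra hG
  have : Infinite G := infinite_of_growth S fun C => by
    obtain ⟨n, hn⟩ := hsp 0 C
    exact ⟨n, by simpa using hn⟩
  obtain ⟨m, hm⟩ := hsp (2 * D) ((Nat.card (fc G) * c ^ 2 * 4 ^ D : ℕ) : ℝ)
  have h1 := ball_le_of_fam hG S m _ _ (hfam (2 * m))
  have h2 : c * (2 * m + 1) ^ D * (Nat.card (fc G) * (c * (2 * m + 1) ^ D)) ≤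
      Nat.card (fc G) * c ^ 2 * 4 ^ D * (m + 1) ^ (2 * D) := by
    have h3 : (2 * m + 1) ^ D * (2 * m + 1) ^ D ≤ 4 ^ D * (m + 1) ^ (2 * D) := by
      rw [← mul_pow, pow_mul (m + 1), ← mul_pow]
      apply Nat.pow_le_pow_left
      ring_nf
      omega
    calc c * (2 * m + 1) ^ D * (Nat.card (fc G) * (c * (2 * m + 1) ^ D))
        = Nat.card (fc G) * c ^ 2 * ((2 * m + 1) ^ D * (2 * m + 1) ^ D) := by ring
      _ ≤ Nat.card (fc G) * c ^ 2 * (4 ^ D * (m + 1) ^ (2 * D)) := Nat.mul_le_mul_left _ h3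
      _ = _ := by ring
  have h4 : ((((S ∪ S⁻¹ ∪ {1}) ^ m).card : ℕ) : ℝ) ≤
      ((Nat.card (fc G) * c ^ 2 * 4 ^ D : ℕ) : ℝ) * ((m : ℝ) + 1) ^ (2 * D) := by
    exact_mod_cast h1.trans h2
  linarith

end Pool.Agent.H50.CIG
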