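import Pool.Agent.Helper50_CIG.Count

/-!
Contracting sequences of groups acting on rooted trees of bounded valency.
-/

open scoped Pointwise

namespace Pool.Agent.H50.CIG

theorem index_le_of_fun {G : Type*} [Group G] {α : Type*} [Finite α] (K : Subgroup G) (f : G → α)
    (h : ∀ a b, f a = f b → a⁻¹ * b ∈ K) : K.FiniteIndex ∧ K.index ≤ Nat.card α := by
  refine ⟨finiteIndex_of_fun K f h, ?_⟩
  rw [Subgroup.index_eq_card]
  apply Nat.card_le_card_of_injective (fun q : G ⧸ K => f q.out)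
  intro q r hqr
  have h1 := h _ _ hqr
  rw [← QuotientGroup.eq] at h1
  rw [QuotientGroup.out_eq', QuotientGroup.out_eq'] at h1
  exact h1

theorem Fam.mono {G : Type*} [Group G] {W W' : Set G} {a a' b b' : ℕ} (hW : W ⊆ W') (ha : a ≤ a')
    (hb : b ≤ b') (h : Fam G W' a b) : Fam G W a' b' := by
  obtain ⟨ι, hι, H, Q, hQ, φ, hH, h1, h2, hf⟩ := h
  refine ⟨ι, hι, H, Q, hQ, φ, hH, fun i => (h1 i).trans ha, fun i => ?_, hf⟩
  have h3 : φ i '' {h | (h : G) ∈ W} ⊆ φ i '' {h | (h : G) ∈ W'} := by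
    apply Set.image_mono
    intro x hx
    exact hW hx
  exact ⟨(h2 i).1.subset h3, (Set.ncard_le_ncard h3 (h2 i).1).trans ((h2 i).2.trans hb)⟩

theorem Fam.base {G : Type} [Group G] {W : Set G} {b : ℕ} (hW : W.Finite) (hb : W.ncard ≤ b) :
    Fam G W 1 b := by
  refine ⟨Unit, inferInstance, fun _ => ⊤, fun _ => G, fun _ => inferInstance,
    fun _ => (⊤ : Subgroup G).subtype, fun _ => inferInstance, fun _ => ?_, fun _ => ?_, ?_⟩
  · rw [Subgroup.index_top]
  · have h1 : ((⊤ : Subgroup G).subtype '' {h | (h : G) ∈ W}) ⊆ W := by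
      rintro _ ⟨x, hx, rfl⟩
      exact hx
    exact ⟨hW.subset h1, (Set.ncard_le_ncard h1 hW).trans hb⟩
  · refine (Set.finite_singleton (1 : G)).subset ?_
    intro g hg
    obtain ⟨_, h⟩ := hg ()
    exact h

section Step

variable {G G' : Type} [Group G] [Group G'] {X : Type} [MulAction G X] (sec : G → X → G')
  (sec_mul : ∀ (g h : G) (x : X), sec (g * h) x = sec g (h • x) * sec h x)

include sec_mul

theorem sec_one (x : X) : sec 1 x = 1 := by
  have h := sec_mul 1 1 x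
  rw [one_smul, mul_one] at h
  exact (mul_eq_left.mp h.symm)

theorem sec_inv (g : G) (x : X) : sec g⁻¹ (g • x) = (sec g x)⁻¹ := by
  have h := sec_mul g⁻¹ g x
  rw [inv_mul_cancel, sec_one sec sec_mul] at h
  exact eq_inv_of_mul_eq_one_left h.symm

/-- the elements of the stabilizer of x with section in K -/
def stab (x : X) (K : Subgroup G') : Subgroup G where
  carrier := {g | g • x = x ∧ sec g x ∈ K}
  one_mem' := ⟨one_smul _ _, by rw [sec_one sec sec_mul]; exact K.one_mem⟩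
  mul_mem' := by
    rintro g h ⟨hg1, hg2⟩ ⟨hh1, hh2⟩
    refine ⟨by rw [mul_smul, hh1, hg1], ?_⟩
    rw [sec_mul, hh1]
    exact K.mul_mem hg2 hh2
  inv_mem' := by
    rintro g ⟨hg1, hg2⟩
    refine ⟨by rw [inv_smul_eq_iff, hg1], ?_⟩
    have h := sec_inv sec sec_mul g x
    rw [hg1] at h
    rw [h]
    exact K.inv_mem hg2

theorem Fam.step [Finite X] (d : ℕ) (hX : Nat.card X ≤ d)
    (hker : {g : G | ∀ x, g • x = x ∧ sec g x = 1}.Finite) {W : Set G} {W' : Set G'}
    (hW : ∀ g ∈ W, ∀ x, sec g x ∈ W') {a b : ℕ} (h : Fam G' W' a b) : Fam G W (d * a) b := by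
  obtain ⟨ι, hι, H, Q, hQ, φ, hH, h1, h2, hf⟩ := h
  have key : ∀ (x : X) (i : ι) (g h : G), (g • x = h • x ∧
      ((sec g x : G') : G' ⧸ H i) = (sec h x : G')) → g⁻¹ * h ∈ stab sec sec_mul x (H i) := by
    rintro x i g h ⟨hg1, hg2⟩
    refine ⟨?_, ?_⟩
    · rw [mul_smul, ← hg1, inv_smul_smul]
    · rw [sec_mul, ← hg1, sec_inv sec sec_mul]
      exact QuotientGroup.eq.mp hg2
  refine ⟨X × ι, inferInstance, fun p => stab sec sec_mul p.1 (H p.2), fun p => Q p.2,
    fun p => hQ p.2, fun p => ?_, ?_, ?_, ?_, ?_⟩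
  · exact
      { toFun := fun g => φ p.2 ⟨sec g.1 p.1, g.2.2⟩
        map_one' := by
          have : (⟨sec (1 : stab sec sec_mul p.1 (H p.2)).1 p.1,
              (1 : stab sec sec_mul p.1 (H p.2)).2.2⟩ : H p.2) = 1 := by
            apply Subtype.ext
            exact sec_one sec sec_mul _
          rw [this, map_one]
        map_mul' := by
          intro g h
          rw [← map_mul]
          congr 1
          apply Subtype.ext
          show sec (g.1 * h.1) p.1 = sec g.1 p.1 * sec h.1 p.1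
          rw [sec_mul, h.2.1] }
  · rintro ⟨x, i⟩
    have := hH i
    exact (index_le_of_fun (α := X × (G' ⧸ H i)) _ (fun g => (g • x, ((sec g x : G') : G' ⧸ H i)))
      fun g h hgh => key x i g h ⟨(Prod.ext_iff.mp hgh).1, (Prod.ext_iff.mp hgh).2⟩).1
  · rintro ⟨x, i⟩
    have := hH i
    refine (index_le_of_fun (α := X × (G' ⧸ H i)) _
      (fun g => (g • x, ((sec g x : G') : G' ⧸ H i)))
      fun g h hgh => key x i g h ⟨(Prod.ext_iff.mp hgh).1, (Prod.ext_iff.mp hgh).2⟩).2.trans ?_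
    rw [Nat.card_prod, ← Subgroup.index_eq_card]
    exact Nat.mul_le_mul hX (h1 i)
  · rintro ⟨x, i⟩
    have h3 : ∀ q ∈ ((fun g : stab sec sec_mul x (H i) => φ i ⟨sec g.1 x, g.2.2⟩) ''
        {h | (h : G) ∈ W}), q ∈ φ i '' {h | (h : G') ∈ W'} := by
      rintro _ ⟨g, hg, rfl⟩
      exact ⟨⟨sec g.1 x, g.2.2⟩, hW _ hg _, rfl⟩
    exact ⟨(h2 i).1.subset h3, (Set.ncard_le_ncard h3 (h2 i).1).trans (h2 i).2⟩
  · have h4 : ((fun g : G => ((fun x : X => g • x, fun x : X => sec g x) : (X → X) × (X → G'))) ⁻¹'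
        (Set.univ ×ˢ Set.pi Set.univ fun _ => {g : G' | ∀ i, ∃ h : g ∈ H i, φ i ⟨g, h⟩ = 1})).Finite := by
      apply Set.Finite.preimage'
      · exact Set.Finite.prod Set.finite_univ (Set.Finite.pi fun _ => hf)
      · intro b _
        by_cases hne : ∃ g0 : G, ((fun x : X => g0 • x, fun x : X => sec g0 x) :
            (X → X) × (X → G')) = b
        · obtain ⟨g0, rfl⟩ := hne
          refine (hker.preimage (f := fun g => g0⁻¹ * g)
            (mul_right_injective g0⁻¹).injOn).subset ?_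
          intro g hg x
          have h5 : ((fun x : X => g • x, fun x : X => sec g x) : (X → X) × (X → G')) =
            (fun x : X => g0 • x, fun x : X => sec g0 x) := hg
          have h6 := congrFun (Prod.ext_iff.mp h5).1 x
          have h7 := congrFun (Prod.ext_iff.mp h5).2 x
          have h6' : g • x = g0 • x := h6
          have h7' : sec g x = sec g0 x := h7
          refine ⟨?_, ?_⟩
          · rw [mul_smul, h6', inv_smul_smul]
          · rw [sec_mul, h6', sec_inv sec sec_mul, h7', inv_mul_cancel]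
        · refine Set.Finite.subset Set.finite_empty ?_
          intro g hg
          exact hne ⟨g, hg⟩
    apply h4.subset
    intro g hg
    refine ⟨Set.mem_univ _, ?_⟩
    intro x _ i
    obtain ⟨h8, h9⟩ := hg (x, i)
    exact ⟨h8.2, h9⟩

end Step

section Tower

variable {G : ℕ → Type} [∀ n, Group (G n)] {X : ℕ → Type} [∀ n, MulAction (G n) (X n)]
  (sec : ∀ n, G n → X n → G (n + 1))

/-- h is an iterated section of the element g of the n-th group -/
inductive IsSec {m : ℕ} (h : G m) : (n : ℕ) → G n → Prop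
  | refl : IsSec h m h
  | step (n : ℕ) (g : G n) (x : X n) : IsSec h (n + 1) (sec n g x) → IsSec h n g

theorem IsSec.le {m : ℕ} {h : G m} {n : ℕ} {g : G n} (hs : IsSec sec h n g) : n ≤ m := by
  induction hs with
  | refl => exact le_rfl
  | step n g x _ ih => omega

theorem IsSec.eq {n : ℕ} {h g : G n} (hs : IsSec sec h n g) : h = g := by
  cases hs with
  | refl => rfl
  | step _ _ x hs =>
    have := hs.le
    omega

theorem IsSec.snoc {m : ℕ} {h : G m} {n : ℕ} {g : G n} (hs : IsSec sec h n g) (y : X m) :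
    IsSec sec (sec m h y) n g := by
  induction hs with
  | refl => exact IsSec.step _ _ y IsSec.refl
  | step n g x _ ih => exact IsSec.step _ _ x ih

theorem IsSec.split {m : ℕ} {h : G m} {n : ℕ} {g : G n} (hs : IsSec sec h n g) (p : ℕ)
    (hnp : n ≤ p) (hpm : p ≤ m) : ∃ k : G p, IsSec sec k n g ∧ IsSec sec h p k := by
  induction hs with
  | refl =>
    have : p = m := le_antisymm hpm hnp
    subst this
    exact ⟨h, IsSec.refl, IsSec.refl⟩
  | step n g x hs ih =>
    rcases hnp.eq_or_lt with rfl | hlt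
    · exact ⟨g, IsSec.refl, IsSec.step _ _ x hs⟩
    · obtain ⟨k, hk1, hk2⟩ := ih hlt
      exact ⟨k, IsSec.step _ _ x hk1, hk2⟩

variable (sec_mul : ∀ n (g h : G n) (x : X n), sec n (g * h) x = sec n g (h • x) * sec n h x)

include sec_mul

theorem IsSec.mul {m : ℕ} {h : G m} {n : ℕ} {k : G n} (hs : IsSec sec h n k) :
    ∀ g g' : G n, k = g * g' → ∃ h1 h2 : G m, h = h1 * h2 ∧ IsSec sec h1 n g ∧
      IsSec sec h2 n g' := by
  induction hs with
  | refl => exact fun g g' hk => ⟨g, g', hk, IsSec.refl, IsSec.refl⟩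
  | step n k x _ ih =>
    rintro g g' rfl
    obtain ⟨h1, h2, e, hs1, hs2⟩ := ih _ _ (sec_mul n g g' x)
    exact ⟨h1, h2, e, IsSec.step _ _ _ hs1, IsSec.step _ _ _ hs2⟩

theorem IsSec.one {m : ℕ} {h : G m} {n : ℕ} {k : G n} (hs : IsSec sec h n k) (hk : k = 1) :
    h = 1 := by
  induction hs with
  | refl => exact hk
  | step n k x _ ih =>
    subst hk
    exact ih (sec_one (sec n) (sec_mul n) x)

theorem pow_sec (A : ∀ n, Set (G n)) (K : ℕ)
    (contr : ∀ n, ∀ g ∈ A n * A n, ∀ h : G (n + K), IsSec sec h n g → h ∈ A (n + K)) (n r : ℕ) :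
    ∀ g ∈ (A n * A n) ^ r, ∀ h : G (n + K), IsSec sec h n g → h ∈ A (n + K) ^ r := by
  induction r with
  | zero =>
    intro g hg h hs
    rw [pow_zero] at hg ⊢
    exact hs.one sec sec_mul hg
  | succ r ih =>
    intro g hg h hs
    rw [pow_succ] at hg ⊢
    obtain ⟨g1, hg1, g2, hg2, rfl⟩ := Set.mem_mul.mp hg
    obtain ⟨h1, h2, rfl, hs1, hs2⟩ := hs.mul sec sec_mul g1 g2 rfl
    exact Set.mul_mem_mul (ih g1 hg1 h1 hs1) (contr n g2 hg2 h2 hs2)

theorem pow_two_sec (A : ∀ n, Set (G n)) (K : ℕ)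
    (contr : ∀ n, ∀ g ∈ A n * A n, ∀ h : G (n + K), IsSec sec h n g → h ∈ A (n + K)) (j : ℕ) :
    ∀ n m, m = n + K * j → ∀ g ∈ A n ^ (2 ^ j), ∀ h : G m, IsSec sec h n g → h ∈ A m := by
  induction j with
  | zero =>
    intro n m hm g hg h hs
    have : m = n := by omega
    subst this
    rw [hs.eq]
    simpa using hg
  | succ j ih =>
    intro n m hm g hg h hs
    have hm' : m = (n + K) + K * j := by
      rw [hm]
      ring
    obtain ⟨k, hk1, hk2⟩ := hs.split sec (n + K) (by omega) (by omega)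
    apply ih (n + K) m hm' k _ h hk2
    apply pow_sec sec sec_mul A K contr n _ g _ k hk1
    rw [← pow_two, ← pow_mul, mul_comm 2 (2 ^ j), ← pow_succ]
    exact hg

theorem fam_chain [∀ n, Finite (X n)] (d b : ℕ) (hX : ∀ n, Nat.card (X n) ≤ d)
    (hker : ∀ n, {g : G n | ∀ x, g • x = x ∧ sec n g x = 1}.Finite) (W : ∀ n, Set (G n)) (m : ℕ) :
    ∀ n, (∀ i, ∀ g ∈ W i, ∀ x, sec i g x ∈ W (i + 1)) →
    (∀ i, i = n + m → (W i).Finite ∧ (W i).ncard ≤ b) → Fam (G n) (W n) (d ^ m) b := by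
  induction m with
  | zero =>
    intro n _ h2
    rw [pow_zero]
    exact Fam.base (h2 n rfl).1 (h2 n rfl).2
  | succ m ih =>
    intro n h1 h2
    rw [pow_succ, mul_comm]
    exact Fam.step (sec n) (sec_mul n) d (hX n) (hker n) (h1 n)
      (ih (n + 1) h1 fun i hi => h2 i (by omega))

theorem fam_of_tower [DecidableEq (G 0)] [∀ n, Finite (X n)] (d : ℕ) (hX : ∀ n, Nat.card (X n) ≤ d)
    (hker : ∀ n, {g : G n | ∀ x, g • x = x ∧ sec n g x = 1}.Finite)
    (A : ∀ n, Set (G n)) (q : ℕ) (hA : ∀ n, (A n).Finite ∧ (A n).ncard ≤ q) (K : ℕ)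
    (contr : ∀ n, ∀ g ∈ A n * A n, ∀ h : G (n + K), IsSec sec h n g → h ∈ A (n + K))
    (h1 : (1 : G 0) ∈ A 0) (S : Finset (G 0)) (r : ℕ)
    (hS : ((S ∪ S⁻¹ ∪ {1} : Finset (G 0)) : Set (G 0)) ⊆ A 0 ^ r) :
    ∃ c D : ℕ, ∀ n : ℕ, Fam (G 0) (((S ∪ S⁻¹ ∪ {1}) ^ n : Finset (G 0)) : Set (G 0))
      (c * (n + 1) ^ D) (c * (n + 1) ^ D) := by
  obtain ⟨e, he⟩ : ∃ e : ℕ, d ≤ 2 ^ e := ⟨d, Nat.lt_two_pow_self.le⟩
  refine ⟨max ((2 * (r + 1)) ^ (e * K)) q, e * K, ?_⟩
  intro n
  let j : ℕ := Nat.log 2 (r * n) + 1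
  have hj1 : r * n ≤ 2 ^ j := (Nat.lt_pow_succ_log_self Nat.one_lt_two (r * n)).le
  have hj2 : 2 ^ j ≤ 2 * (r + 1) * (n + 1) := by
    rcases Nat.eq_zero_or_pos (r * n) with h0 | hn
    · simp only [j, h0, Nat.log_zero_right, zero_add, pow_one]
      nlinarith
    · have h1 := Nat.pow_log_le_self 2 hn.ne'
      simp only [j, pow_succ]
      nlinarith
  let W : ∀ i, Set (G i) := fun i =>
    {h | ∃ g ∈ (((S ∪ S⁻¹ ∪ {1}) ^ n : Finset (G 0)) : Set (G 0)), IsSec sec h 0 g}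
  have hW0 : (((S ∪ S⁻¹ ∪ {1}) ^ n : Finset (G 0)) : Set (G 0)) ⊆ W 0 :=
    fun g hg => ⟨g, hg, IsSec.refl⟩
  have h2 : ∀ i, i = 0 + K * j → W i ⊆ A i := by
    rintro i hi h ⟨g, hg, hs⟩
    apply pow_two_sec sec sec_mul A K contr j 0 i hi g _ h hs
    rw [Finset.coe_pow] at hg
    have hg' := Set.pow_subset_pow_left hS (n := n) hg
    rw [← pow_mul] at hg'
    exact Set.pow_subset_pow_right h1 hj1 hg'
  have h3 := fam_chain sec sec_mul d q hX hker W (K * j) 0
    (by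
      rintro i g ⟨g0, hg0, hs⟩ x
      exact ⟨g0, hg0, hs.snoc sec x⟩)
    (by
      intro i hi
      exact ⟨(hA i).1.subset (h2 i hi), (Set.ncard_le_ncard (h2 i hi) (hA i).1).trans (hA i).2⟩)
  apply h3.mono hW0
  · calc d ^ (K * j) ≤ (2 ^ e) ^ (K * j) := Nat.pow_le_pow_left he _
      _ = (2 ^ j) ^ (e * K) := by
        rw [← pow_mul, ← pow_mul]
        congr 1
        ring
      _ ≤ (2 * (r + 1) * (n + 1)) ^ (e * K) := Nat.pow_le_pow_left hj2 _
      _ = (2 * (r + 1)) ^ (e * K) * (n + 1) ^ (e * K) := by rw [mul_pow]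
      _ ≤ _ := Nat.mul_le_mul_right _ (le_max_left _ _)
  · calc q ≤ max ((2 * (r + 1)) ^ (e * K)) q * 1 := by
          rw [mul_one]
          exact le_max_right _ _
      _ ≤ _ := Nat.mul_le_mul_left _ (Nat.one_le_pow _ _ (Nat.succ_pos n))

end Tower

end Pool.Agent.H50.CIG
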