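import Pool.Agent.Helper50_CIG.Count

/-!
Theorem U (helper45): covers by cosets of conjugates of virtually normal subgroups.
-/

open scoped Pointwise

namespace Pool.Agent.H50.CIG

variable {G : Type*} [Group G]

theorem card_le_of_cover [Infinite G] (hG : ¬ CI G) {ι : Type*} [Finite ι]
    (H K : ι → Subgroup G) (hH : ∀ i, (H i).FiniteIndex)
    (hn : ∀ i, ∀ h ∈ H i, ∀ k ∈ K i, h * k * h⁻¹ ∈ K i)
    (hf : ((⨅ i, K i : Subgroup G) : Set G).Finite) (B : Finset G) (N : ℕ)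
    (hB : ∀ i, ∃ T : Finset (G × G), T.card ≤ N ∧
      ∀ g ∈ B, ∃ p ∈ T, p.2⁻¹ * (p.1⁻¹ * g) * p.2 ∈ K i) :
    B.card ≤ Nat.card (fc G) * N := by
  classical
  obtain ⟨i, hi⟩ := exists_le_fc hG H K hH hn hf
  obtain ⟨T, hT, hcov⟩ := hB i
  have hfc : (fc G : Set G).Finite := fc_finite hG
  have h1 : B ⊆ (T ×ˢ hfc.toFinset).image
      (fun q : (G × G) × G => q.1.1 * (q.1.2 * q.2 * q.1.2⁻¹)) := by
    intro g hg
    obtain ⟨p, hp, hk⟩ := hcov g hg
    rw [Finset.mem_image]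
    refine ⟨(p, p.2⁻¹ * (p.1⁻¹ * g) * p.2), ?_, by group⟩
    rw [Finset.mem_product]
    exact ⟨hp, (Set.Finite.mem_toFinset hfc).mpr (hi hk)⟩
  have h2 := (Finset.card_le_card h1).trans Finset.card_image_le
  rw [Finset.card_product, ← Set.ncard_eq_toFinset_card _ hfc] at h2
  calc B.card ≤ T.card * (fc G : Set G).ncard := h2
    _ ≤ N * (fc G : Set G).ncard := Nat.mul_le_mul_right _ hT
    _ = Nat.card (fc G) * N := Nat.mul_comm _ _

end Pool.Agent.H50.CIG
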