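import Pool.Agent.Helper50_CIG.Contr

/-!
Contracting self-similar groups.
-/

open scoped Pointwise

namespace Pool.Agent.H50.CIG

/-- iterated section of a group element along a word -/
def secL {G X : Type} (sec : G → X → G) : G → List X → G
  | g, [] => g
  | g, x :: v => secL sec (sec g x) v

theorem secL_of_isSec {G X : Type} [Group G] [MulAction G X] (sec : G → X → G) {m : ℕ} {h : G}
    {n : ℕ} {g : G} (hs : IsSec (G := fun _ => G) (X := fun _ => X) (m := m) (fun _ => sec) h n g) :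
    ∃ v : List X, n + v.length = m ∧ h = secL sec g v := by
  refine IsSec.rec (motive := fun n g _ => ∃ v : List X, n + v.length = m ∧ h = secL sec g v)
    ?_ ?_ hs
  · exact ⟨[], rfl, rfl⟩
  · rintro n g x _ ⟨v, hv, e⟩
    refine ⟨x :: v, ?_, e⟩
    rw [List.length_cons]
    omega

/-- virtual homomorphisms of a contracting self-similar group -/
theorem fam_of_contracting {G : Type} [Group G] [DecidableEq G] {X : Type} [Finite X]
    [MulAction G X] (sec : G → X → G)
    (sec_mul : ∀ (g h : G) (x : X), sec (g * h) x = sec g (h • x) * sec h x)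
    (hker : {g : G | ∀ x, g • x = x ∧ sec g x = 1}.Finite)
    (N : Set G) (hN : N.Finite) (hcon : ∀ g : G, ∃ m, ∀ v : List X, m ≤ v.length →
      secL sec g v ∈ N) (S : Finset G) :
    ∃ c D : ℕ, ∀ n : ℕ, Fam G (((S ∪ S⁻¹ ∪ {1}) ^ n : Finset G) : Set G)
      (c * (n + 1) ^ D) (c * (n + 1) ^ D) := by
  let A : Set G := ((S ∪ S⁻¹ ∪ {1} : Finset G) : Set G) ∪ N
  have hA : A.Finite := (Finset.finite_toSet _).union hN
  have hAA : (A * A).Finite := hA.mul hA
  choose M hM using hcon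
  obtain ⟨K, hK⟩ : ∃ K, ∀ g ∈ A * A, M g ≤ K := by
    obtain ⟨K, hK⟩ := (hAA.image M).bddAbove
    exact ⟨K, fun g hg => hK ⟨g, hg, rfl⟩⟩
  refine fam_of_tower (G := fun _ => G) (X := fun _ => X) (fun _ => sec) (fun _ => sec_mul)
    (Nat.card X) (fun _ => le_rfl) (fun _ => hker) (fun _ => A) A.ncard
    (fun _ => ⟨hA, le_rfl⟩) K ?_ (Or.inl (by simp)) S 1 ?_
  · intro n g hg h hs
    obtain ⟨v, hv, e⟩ := secL_of_isSec sec hs
    have e' : h = secL sec g v := e
    rw [e']
    right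
    exact hM g v ((hK g hg).trans (by omega))
  · rw [pow_one]
    exact Set.subset_union_left

theorem exists_pow {G : Type*} [Group G] (A : Set G) (h1 : (1 : G) ∈ A) (T : Finset G)
    (hT : (T : Set G) ⊆ Submonoid.closure A) : ∃ r : ℕ, (T : Set G) ⊆ A ^ r := by
  classical
  have hex : ∀ g : G, g ∈ Submonoid.closure A → ∃ r : ℕ, g ∈ A ^ r := by
    intro g hg
    induction hg using Submonoid.closure_induction with
    | mem x hx => exact ⟨1, by rwa [pow_one]⟩
    | one => exact ⟨0, by rw [pow_zero]; exact Set.mem_one.mpr rfl⟩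
    | mul x y _ _ hx hy =>
      obtain ⟨r, hr⟩ := hx
      obtain ⟨s, hs⟩ := hy
      exact ⟨r + s, by rw [pow_add]; exact Set.mul_mem_mul hr hs⟩
  have hex' : ∀ g : T, ∃ r : ℕ, (g : G) ∈ A ^ r := fun g => hex g (hT g.2)
  choose r hr using hex'
  obtain ⟨K, hK⟩ := (Set.finite_range r).bddAbove
  refine ⟨K, fun g hg => ?_⟩
  exact Set.pow_subset_pow_right h1 (hK ⟨⟨g, hg⟩, rfl⟩) (hr ⟨g, hg⟩)

end Pool.Agent.H50.CIG
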