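import Pool.Agent.Helper50_CIG.SelfSim

/-!
Finitely generated subgroups: virtual homomorphisms restrict to subgroups.
-/

open scoped Pointwise

namespace Pool.Agent.H50.CIG

theorem Fam.subgroup {G : Type*} [Group G] {W : Set G} {a b : ℕ} (h : Fam G W a b)
    (P : Subgroup G) : Fam P {x : P | (x : G) ∈ W} a b := by
  obtain ⟨ι, hι, H, Q, hQ, φ, hH, h1, h2, hf⟩ := h
  refine ⟨ι, hι, fun i => (H i).subgroupOf P, Q, hQ, fun i =>
    { toFun := fun g => φ i ⟨((g : P) : G), g.2⟩
      map_one' := (φ i).map_one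
      map_mul' := fun g h => (φ i).map_mul ⟨((g : P) : G), g.2⟩ ⟨((h : P) : G), h.2⟩ },
    ?_, ?_, ?_, ?_⟩
  · intro i
    have := hH i
    infer_instance
  · intro i
    have := hH i
    refine le_trans ?_ (h1 i)
    have h3 := Subgroup.relIndex_le_of_le_right (H := H i) (K := P) (L := ⊤) le_top (by
      rw [Subgroup.relIndex_top_right]
      exact Subgroup.FiniteIndex.index_ne_zero)
    rwa [Subgroup.relIndex_top_right] at h3
  · intro i
    have h3 : ∀ q ∈ ((fun g : (H i).subgroupOf P => φ i ⟨((g : P) : G), g.2⟩) ''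
        {h | (h : P) ∈ {x : P | (x : G) ∈ W}}), q ∈ φ i '' {h | (h : G) ∈ W} := by
      rintro _ ⟨g, hg, rfl⟩
      exact ⟨⟨((g : P) : G), g.2⟩, hg, rfl⟩
    exact ⟨(h2 i).1.subset h3, (Set.ncard_le_ncard h3 (h2 i).1).trans (h2 i).2⟩
  · refine (hf.preimage (f := fun x : P => (x : G)) Subtype.val_injective.injOn).subset ?_
    intro g hg i
    obtain ⟨h4, h5⟩ := hg i
    exact ⟨h4, h5⟩

/-- if the ball is large compared with index times image then there are two infinite commuting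
subgroups -/
theorem ci_of_large {G : Type*} [Group G] [DecidableEq G] [Infinite G] (S : Finset G)
    (h : ∀ k : ℕ, ∃ m a b : ℕ, Fam G (((S ∪ S⁻¹ ∪ {1}) ^ (2 * m) : Finset G) : Set G) a b ∧
      k * (a * b) < ((S ∪ S⁻¹ ∪ {1}) ^ m).card) : CI G := by
  by_contra hG
  obtain ⟨m, a, b, hfam, hlt⟩ := h (Nat.card (fc G))
  have h1 := ball_le_of_fam hG S m a b hfam
  have h2 : a * (Nat.card (fc G) * b) = Nat.card (fc G) * (a * b) := by ring
  omega

/-- balls of the subgroup generated by S -/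
theorem closure_ball {G : Type*} [Group G] [DecidableEq G] (S : Finset G) :
    ∃ S' : Finset (Subgroup.closure (S : Set G)),
      ∀ n, ((S' ∪ S'⁻¹ ∪ {1}) ^ n).image (Subgroup.closure (S : Set G)).subtype =
        (S ∪ S⁻¹ ∪ {1}) ^ n := by
  let P := Subgroup.closure (S : Set G)
  let f : P →* G := P.subtype
  let S' : Finset P := S.attach.image fun s => ⟨s.1, Subgroup.subset_closure s.2⟩
  have h1 : S'.image f = S := by
    ext x
    rw [Finset.mem_image]
    constructor
    · rintro ⟨y, hy, rfl⟩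
      obtain ⟨a, _, rfl⟩ := Finset.mem_image.mp hy
      exact a.2
    · intro hx
      exact ⟨⟨x, Subgroup.subset_closure hx⟩,
        Finset.mem_image.mpr ⟨⟨x, hx⟩, Finset.mem_attach _ _, rfl⟩, rfl⟩
  refine ⟨S', fun n => ?_⟩
  have h5 : (S' ∪ S'⁻¹ ∪ {1}).image f = S ∪ S⁻¹ ∪ {1} := by
    have h6 : (S'⁻¹).image f = S⁻¹ := by
      ext x
      rw [Finset.mem_image, Finset.mem_inv']
      constructor
      · rintro ⟨y, hy, rfl⟩
        rw [Finset.mem_inv'] at hy
        rw [← h1]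
        exact Finset.mem_image.mpr ⟨y⁻¹, hy, map_inv f y⟩
      · intro hx
        rw [← h1] at hx
        obtain ⟨y, hy, hyx⟩ := Finset.mem_image.mp hx
        refine ⟨y⁻¹, by rwa [Finset.mem_inv', inv_inv], ?_⟩
        rw [map_inv, hyx, inv_inv]
    rw [Finset.image_union, Finset.image_union, h1, Finset.image_singleton, h6, map_one]
  rw [← h5]
  exact Finset.image_pow f _ n

/-- T2 for the subgroup generated by S -/
theorem ci_closure_of_fam {G : Type*} [Group G] [DecidableEq G] (S : Finset G)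
    (hsp : ∀ d : ℕ, ∀ C : ℝ, ∃ n : ℕ,
      C * ((n : ℝ) + 1) ^ d < ((((S ∪ S⁻¹ ∪ {1}) ^ n).card : ℕ) : ℝ))
    (c D : ℕ) (hfam : ∀ n : ℕ, Fam G (((S ∪ S⁻¹ ∪ {1}) ^ n : Finset G) : Set G)
      (c * (n + 1) ^ D) (c * (n + 1) ^ D)) : CI (Subgroup.closure (S : Set G)) := by
  obtain ⟨S', hS'⟩ := closure_ball S
  apply ci_of_fam S' (c := c) (D := D)
  · intro d C
    obtain ⟨n, hn⟩ := hsp d C
    refine ⟨n, ?_⟩
    rw [← hS' n, Finset.card_image_of_injective _ (Subgroup.subtype_injective _)] at hn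
    exact hn
  · intro n
    refine ((hfam n).subgroup (Subgroup.closure (S : Set G))).mono ?_ le_rfl le_rfl
    intro x hx
    show (x : G) ∈ (((S ∪ S⁻¹ ∪ {1}) ^ n : Finset G) : Set G)
    rw [Finset.mem_coe, ← hS' n]
    exact Finset.mem_image_of_mem _ hx

end Pool.Agent.H50.CIG
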